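import Pool.Agent.helper90.IV.Spec

set_option autoImplicit false

open scoped BigOperators

namespace Pool.Agent.helper51.IV

open Pool.Agent.IV Pool.Agent.helper23.TH Pool.Agent.KS

noncomputable section

open Classical

theorem rich_mono {I : Type} [Fintype I] {V K : Type} (T : Tr I) (A : V → V → Prop)
    (lam : Fin 2 → V → V → K) (gh : T.R → Option I) (W : Finset I) {P P' : ℕ} (h : P' ≤ P)
    (x : I → V) (y : T.R → V) (hr : Rich T A lam gh W P x y) : Rich T A lam gh W P' x y := by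
  obtain ⟨z, h1, h2⟩ := hr
  refine ⟨fun j => z (Fin.castLE h j), fun j => h1 _, fun j j' hj => h2 _ _ fun e => hj ?_⟩
  exact Fin.castLE_injective h e

theorem state_mono {I : Type} [Fintype I] {V K : Type} [Fintype V] (T : Tr I) (s : ℕ)
    (A : V → V → Prop) (lam : Fin 2 → V → V → K) (gh : T.R → Option I) (W : Finset I) {P P' : ℕ}
    (h : P' ≤ P) (η : ℝ) (hS : State T s A lam W gh P η) : State T s A lam W gh P' η := by
  refine ⟨hS.1, hS.2.trans ?_⟩
  refine Nat.cast_le.2 (Finset.card_le_card fun f hf => ?_)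
  rw [Finset.mem_filter] at hf ⊢
  exact ⟨hf.1, hf.2.1, rich_mono T A lam gh W h f.1 f.2 hf.2.2⟩

theorem hm_nonempty (hlb : HLB_stmt) {I : Type} [Fintype I] (T : Tr I) {s Ch : ℕ} {V K : Type}
    [Fintype V] (A : V → V → Prop) (lam : Fin 2 → V → V → K) {d κ KE ε K₀ : ℝ}
    (hE : Env T s Ch A lam d κ KE ε K₀) (gh : T.R → Option I) (hg : GV T gh) :
    (Hm T A gh).Nonempty := by
  have h1 := hlb I T V A d gh hE.pr.symm (zero_le_one.trans hE.d1) hE.lo hg
  have h2 : (0 : ℝ) < Fintype.card V := Nat.cast_pos.2 hE.pos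
  have h3 : (0 : ℝ) < d := lt_of_lt_of_le one_pos hE.d1
  have h4 : (0 : ℝ) < (Hm T A gh).card := lt_of_lt_of_le (mul_pos h2 (pow_pos h3 _)) h1
  exact Finset.card_pos.1 (Nat.cast_pos.1 h4)

theorem lit_aux (stp : STP_stmt) (en : EN_stmt) (hlb : HLB_stmt) (I : Type) [Fintype I] (T : Tr I)
    (s Ch q : ℕ) (κ KE : ℝ) (hT : TOK T s) (hκ : 1 ≤ κ) (k : ℕ) :
    ∃ P : ℕ, ∀ η : ℝ, 0 < η → ∃ ε₁ K₁ : ℝ, 0 < ε₁ ∧
      ∀ (V K : Type) [Fintype V] (A : V → V → Prop) (lam : Fin 2 → V → V → K) (d ε K₀ : ℝ),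
      Env T s Ch A lam d κ KE ε K₀ → ε ≤ ε₁ → K₁ ≤ K₀ →
      ∀ (gh : T.R → Option I) (W : Finset I), Wᶜ.card ≤ k → State T s A lam W gh P η →
      RB T A lam q := by
  induction k with
  | zero =>
    refine ⟨q, fun η hη => ⟨1, 0, one_pos, ?_⟩⟩
    intro V K _ A lam d ε K₀ hE _ _ gh W hW hS
    have hW' : W = Finset.univ := by
      have h0 : Wᶜ = ∅ := Finset.card_eq_zero.1 (Nat.le_zero.1 hW)
      rwa [Finset.compl_eq_empty_iff] at h0
    subst hW'
    exact en I T s q V K A lam gh η hE.pr hη (hm_nonempty hlb T A lam hE gh hS.1.gv) hS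
  | succ k ih =>
    obtain ⟨P', hP'⟩ := ih
    obtain ⟨P, hP⟩ := stp I T s Ch P' κ KE hT hκ
    refine ⟨max P q, fun η hη => ?_⟩
    obtain ⟨η', ε₁, K₁, hη', hε₁, hst⟩ := hP η hη
    obtain ⟨ε₂, K₂, hε₂, hfin⟩ := hP' η' hη'
    refine ⟨min ε₁ ε₂, max K₁ K₂, lt_min hε₁ hε₂, ?_⟩
    intro V K _ A lam d ε K₀ hE hε hK gh W hW hS
    by_cases hu : W = Finset.univ
    · subst hu
      exact en I T s q V K A lam gh η hE.pr hη (hm_nonempty hlb T A lam hE gh hS.1.gv)
        (state_mono T s A lam gh _ (le_max_right P q) η hS)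
    · obtain ⟨W', gh', hlt, hS'⟩ := hst V K A lam d ε K₀ hE (hε.trans (min_le_left _ _))
        ((le_max_left _ _).trans hK) gh W hu (state_mono T s A lam gh _ (le_max_left P q) η hS)
      refine hfin V K A lam d ε K₀ hE (hε.trans (min_le_right _ _)) ((le_max_right _ _).trans hK)
        gh' W' ?_ hS'
      have h1 : W'ᶜ ⊂ Wᶜ := by
        rw [Finset.ssubset_iff_subset_ne]
        refine ⟨Finset.compl_subset_compl.2 hlt.subset, fun e => hlt.ne (compl_injective e).symm⟩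
      have := Finset.card_lt_card h1
      omega

theorem LIT (stp : STP_stmt) (sta : STA_stmt) (en : EN_stmt) (hlb : HLB_stmt) : LIT_stmt := by
  intro I _ T s Ch q κ KE hT hκ
  obtain ⟨P, hP⟩ := lit_aux stp en hlb I T s Ch q κ KE hT hκ (Fintype.card I)
  obtain ⟨ε₁, K₁, hε₁, h1⟩ := hP (1 / 2) (by norm_num)
  obtain ⟨K₂, h2⟩ := sta I T s P κ hκ
  refine ⟨ε₁, max K₁ K₂, hε₁, ?_⟩
  intro V K _ A lam d ε K₀ hE hε hK
  refine h1 V K A lam d ε K₀ hE hε ((le_max_left _ _).trans hK) (fun _ => none) ∅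
    (Finset.card_le_univ _) ?_
  exact h2 V K A lam Ch d KE ε K₀ hE ((le_max_right _ _).trans hK)

end

end Pool.Agent.helper51.IV
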